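import Pool.Agent.Q156.PlaneRot

/-!
A convex body in three-space, not a Euclidean ball, all of whose orthogonal projections onto
planes are translates of completely symmetric sets.  The body has support function
`h v = |v| + (1/8) v_0 v_1 v_2 / |v|^2`.
-/

open MeasureTheory Metric Module
open scoped RealInnerProductSpace

namespace Pool.Agent.Results.MP_093203_gt.NotABall

open Pool.Agent.Q156

/-- The support function. -/
noncomputable def hfun (v : E3) : ℝ := ‖v‖ + (1 / 8) * (v 0 * v 1 * v 2) / ‖v‖ ^ 2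

theorem abs_coord_le (v : E3) (i : Fin 3) : |v i| ≤ ‖v‖ := by
  have := PiLp.norm_apply_le v i
  rwa [Real.norm_eq_abs] at this

theorem abs_prod_le (v : E3) : |v 0 * v 1 * v 2| ≤ ‖v‖ ^ 3 := by
  rw [abs_mul, abs_mul]
  have h0 := abs_coord_le v 0
  have h1 := abs_coord_le v 1
  have h2 := abs_coord_le v 2
  calc |v 0| * |v 1| * |v 2| ≤ ‖v‖ * ‖v‖ * ‖v‖ := by gcongr
    _ = ‖v‖ ^ 3 := by ring

theorem hfun_bound (v : E3) : |(1 / 8) * (v 0 * v 1 * v 2) / ‖v‖ ^ 2| ≤ (1 / 8) * ‖v‖ := by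
  rcases eq_or_ne v 0 with rfl | hv
  · simp
  have hpos : 0 < ‖v‖ := norm_pos_iff.mpr hv
  rw [abs_div, abs_mul, abs_of_nonneg (by positivity : (0 : ℝ) ≤ ‖v‖ ^ 2),
    div_le_iff₀ (by positivity), abs_of_nonneg (by norm_num : (0 : ℝ) ≤ 1 / 8)]
  have := abs_prod_le v
  nlinarith

theorem hfun_le (v : E3) : hfun v ≤ 2 * ‖v‖ := by
  have h := (abs_le.mp (hfun_bound v)).2
  have h0 := norm_nonneg v
  unfold hfun
  linarith

theorem le_hfun (v : E3) : (1 / 2) * ‖v‖ ≤ hfun v := by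
  have h := (abs_le.mp (hfun_bound v)).1
  have h0 := norm_nonneg v
  unfold hfun
  linarith

theorem hfun_smul (t : ℝ) (ht : 0 ≤ t) (v : E3) : hfun (t • v) = t * hfun v := by
  rcases eq_or_lt_of_le ht with rfl | htpos
  · simp [hfun]
  rcases eq_or_ne v 0 with rfl | hv
  · simp [hfun]
  have hpos : 0 < ‖v‖ := norm_pos_iff.mpr hv
  unfold hfun
  rw [norm_smul, Real.norm_of_nonneg ht]
  simp only [PiLp.smul_apply, smul_eq_mul]
  field_simp

theorem aux1 (t a b : ℝ) (h1 : -1 ≤ t) (h2 : t ≤ 1) : -(a * b * t) ≤ (a ^ 2 + b ^ 2) / 2 := by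
  nlinarith [mul_nonneg (by linarith : (0 : ℝ) ≤ 1 + t) (sq_nonneg (a + b)),
    mul_nonneg (by linarith : (0 : ℝ) ≤ 1 - t) (sq_nonneg (a - b))]

theorem key_ineq (a b c x y z : ℝ) (hu : a ^ 2 + b ^ 2 + c ^ 2 = 1)
    (hz : x ^ 2 + y ^ 2 + z ^ 2 = 1) :
    (a * x + b * y + c * z) + (1 / 8) * (x * b * c + y * a * c + z * a * b -
      2 * (a * b * c) * (a * x + b * y + c * z)) ≤ 1 + (1 / 8) * (x * y * z) := by
  have ha : -1 ≤ a ∧ a ≤ 1 := by constructor <;> nlinarith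
  have hb : -1 ≤ b ∧ b ≤ 1 := by constructor <;> nlinarith
  have hc : -1 ≤ c ∧ c ≤ 1 := by constructor <;> nlinarith
  have hz' : -1 ≤ z ∧ z ≤ 1 := by constructor <;> nlinarith
  obtain ⟨p, hp⟩ : ∃ p, p = x - a := ⟨_, rfl⟩
  obtain ⟨q, hq⟩ : ∃ q, q = y - b := ⟨_, rfl⟩
  obtain ⟨r, hr⟩ : ∃ r, r = z - c := ⟨_, rfl⟩
  have hx1 : x = a + p := by linarith
  have hy1 : y = b + q := by linarith
  have hz1 : z = c + r := by linarith
  have hrr : -1 ≤ r / 2 ∧ r / 2 ≤ 1 := by constructor <;> linarith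
  have i1 := aux1 c p q hc.1 hc.2
  have i2 := aux1 b p r hb.1 hb.2
  have i3 := aux1 a q r ha.1 ha.2
  have i4 := aux1 (r / 2) p q hrr.1 hrr.2
  have i5 : a * b * c ≤ 1 := by
    have h1 : |a * b * c| ≤ 1 := by
      rw [abs_mul, abs_mul]
      have := abs_le.mpr ha
      have := abs_le.mpr hb
      have := abs_le.mpr hc
      calc |a| * |b| * |c| ≤ 1 * 1 * 1 := by gcongr
        _ = 1 := by norm_num
    exact (abs_le.mp h1).2
  have i6 : a * b * c * (p ^ 2 + q ^ 2 + r ^ 2) ≤ p ^ 2 + q ^ 2 + r ^ 2 := by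
    nlinarith [mul_le_mul_of_nonneg_right i5 (by positivity : (0 : ℝ) ≤ p ^ 2 + q ^ 2 + r ^ 2)]
  have hdot : a * p + b * q + c * r = -(p ^ 2 + q ^ 2 + r ^ 2) / 2 := by
    rw [hx1, hy1, hz1] at hz
    linarith
  have e1 : a * x + b * y + c * z = 1 - (p ^ 2 + q ^ 2 + r ^ 2) / 2 := by
    rw [hx1, hy1, hz1]
    linear_combination hu + hdot
  have e2 : x * b * c + y * a * c + z * a * b - 2 * (a * b * c) * (a * x + b * y + c * z) -
      x * y * z = -(p * q * c) - (p * r * b) - (q * r * a) - p * q * r +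
        a * b * c * (p ^ 2 + q ^ 2 + r ^ 2) := by
    rw [e1, hx1, hy1, hz1]
    ring
  nlinarith [i1, i2, i3, i4, i6, e1, e2, sq_nonneg p, sq_nonneg q, sq_nonneg r]

/-- The point of the body with outer normal `u`. -/
noncomputable def gradh (u : E3) : E3 :=
  !₂[u 0 + (1 / 8) * (u 1 * u 2 - 2 * (u 0 * u 1 * u 2) * u 0),
    u 1 + (1 / 8) * (u 0 * u 2 - 2 * (u 0 * u 1 * u 2) * u 1),
    u 2 + (1 / 8) * (u 0 * u 1 - 2 * (u 0 * u 1 * u 2) * u 2)]

theorem inner_gradh (u z : E3) : ⟪gradh u, z⟫ =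
    (u 0 * z 0 + u 1 * z 1 + u 2 * z 2) + (1 / 8) * (z 0 * u 1 * u 2 + z 1 * u 0 * u 2 +
      z 2 * u 0 * u 1 - 2 * (u 0 * u 1 * u 2) * (u 0 * z 0 + u 1 * z 1 + u 2 * z 2)) := by
  rw [inner_E3]
  simp only [gradh, PiLp.toLp_apply, Matrix.cons_val_zero, Matrix.cons_val_one, Matrix.cons_val]
  ring

theorem gradh_mem (u : E3) (hu : ‖u‖ = 1) : gradh u ∈ wulff hfun := by
  intro w
  have hu' : u 0 ^ 2 + u 1 ^ 2 + u 2 ^ 2 = 1 := by rw [← norm_E3, hu]; norm_num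
  rcases eq_or_ne w 0 with rfl | hw
  · simp [hfun]
  have hpos : 0 < ‖w‖ := norm_pos_iff.mpr hw
  obtain ⟨z, hz⟩ : ∃ z, z = ‖w‖⁻¹ • w := ⟨_, rfl⟩
  have hwz : w = ‖w‖ • z := by
    rw [hz, smul_smul, mul_inv_cancel₀ hpos.ne', one_smul]
  have hzn : ‖z‖ = 1 := by
    rw [hz, norm_smul, norm_inv, norm_norm, inv_mul_cancel₀ hpos.ne']
  have hz' : z 0 ^ 2 + z 1 ^ 2 + z 2 ^ 2 = 1 := by rw [← norm_E3, hzn]; norm_num
  have h1 : ⟪gradh u, z⟫ ≤ hfun z := by
    rw [inner_gradh]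
    have := key_ineq (u 0) (u 1) (u 2) (z 0) (z 1) (z 2) hu' hz'
    unfold hfun
    rw [hzn]
    simpa using this
  rw [hwz, inner_smul_right, hfun_smul _ hpos.le]
  exact mul_le_mul_of_nonneg_left h1 hpos.le

theorem gradh_self (u : E3) (hu : ‖u‖ = 1) : ⟪gradh u, u⟫ = hfun u := by
  have hu' : u 0 ^ 2 + u 1 ^ 2 + u 2 ^ 2 = 1 := by rw [← norm_E3, hu]; norm_num
  rw [inner_gradh]
  unfold hfun
  rw [hu]
  linear_combination (1 - (1 / 4) * (u 0 * u 1 * u 2)) * hu'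

theorem attained (v : E3) : ∃ x ∈ wulff hfun, ⟪x, v⟫ = hfun v := by
  rcases eq_or_ne v 0 with rfl | hv
  · refine ⟨0, ?_, by simp [hfun]⟩
    exact ball_subset_wulff hfun (1 / 2) le_hfun (by simp)
  have hpos : 0 < ‖v‖ := norm_pos_iff.mpr hv
  have hun : ‖‖v‖⁻¹ • v‖ = 1 := by
    rw [norm_smul, norm_inv, norm_norm, inv_mul_cancel₀ hpos.ne']
  have hv' : v = ‖v‖ • (‖v‖⁻¹ • v) := by
    rw [smul_smul, mul_inv_cancel₀ hpos.ne', one_smul]
  refine ⟨gradh (‖v‖⁻¹ • v), gradh_mem _ hun, ?_⟩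
  conv_lhs => rw [hv']
  conv_rhs => rw [hv']
  rw [inner_smul_right, hfun_smul _ hpos.le]
  congr 1
  have := gradh_self _ hun
  convert this using 2
  rw [← hv']

theorem compact : IsCompact (wulff hfun) := wulff_compact hfun 2 (by norm_num) hfun_le

theorem rot_identity (a b c x y z s : ℝ) (hu : a ^ 2 + b ^ 2 + c ^ 2 = 1)
    (hv : a * x + b * y + c * z = 0) (hs : s ^ 2 = 3 / 4) :
    let N := x ^ 2 + y ^ 2 + z ^ 2
    let w0 := b * z - c * y
    let w1 := c * x - a * z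
    let w2 := a * y - b * x
    (-(1 / 2) * x + s * w0) * (-(1 / 2) * y + s * w1) * (-(1 / 2) * z + s * w2) +
      (1 / 4) * N * ((-(1 / 2) * x + s * w0) * b * c + (-(1 / 2) * y + s * w1) * a * c +
        (-(1 / 2) * z + s * w2) * a * b) =
    x * y * z + (1 / 4) * N * (x * b * c + y * a * c + z * a * b) := by
  intro N w0 w1 w2
  have C01 : a * b * N + x * y + w0 * w1 = 0 := by
    simp only [N, w0, w1]
    linear_combination (a * y + b * x) * hv - x * y * hu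
  have C02 : a * c * N + x * z + w0 * w2 = 0 := by
    simp only [N, w0, w2]
    linear_combination (a * z + c * x) * hv - x * z * hu
  have C12 : b * c * N + y * z + w1 * w2 = 0 := by
    simp only [N, w1, w2]
    linear_combination (b * z + c * y) * hv - y * z * hu
  have T1 : ∃ T, T = x * y * w2 + x * z * w1 + y * z * w0 := ⟨_, rfl⟩
  linear_combination ((3 / 2) * (x * y * z) - (s / 3) * (x * y * w2 + x * z * w1 + y * z * w0) +
      (1 / 2) * N * (x * b * c + y * a * c + z * a * b) -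
      (s / 3) * N * (w0 * b * c + w1 * a * c + w2 * a * b)) * hs +
    (-(1 / 2) * s ^ 2 * z + s ^ 3 / 3 * w2) * C01 + (-(1 / 2) * s ^ 2 * y + s ^ 3 / 3 * w1) * C02 +
    (-(1 / 2) * s ^ 2 * x + s ^ 3 / 3 * w0) * C12

/-- The translation vector of the projection onto the plane orthogonal to `u`. -/
noncomputable def gvec (u : E3) : E3 :=
  !₂[-(1 / 32) * (u 1 * u 2), -(1 / 32) * (u 0 * u 2), -(1 / 32) * (u 0 * u 1)]

theorem inner_gvec (u z : E3) : ⟪gvec u, z⟫ =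
    -(1 / 32) * (z 0 * u 1 * u 2 + z 1 * u 0 * u 2 + z 2 * u 0 * u 1) := by
  rw [inner_E3]
  simp only [gvec, PiLp.toLp_apply, Matrix.cons_val_zero, Matrix.cons_val_one, Matrix.cons_val]
  ring

theorem invariant (u : E3) (hu : ‖u‖ = 1) (R : (ℝ ∙ u)ᗮ ≃ₗᵢ[ℝ] (ℝ ∙ u)ᗮ)
    (hR : ∀ x, R x = (-(1 / 2) : ℝ) • x + (√3 / 2) • planeJ u x) (v : (ℝ ∙ u)ᗮ) :
    hfun (R v : (ℝ ∙ u)ᗮ) - ⟪gvec u, ((R v : (ℝ ∙ u)ᗮ) : E3)⟫ = hfun v - ⟪gvec u, (v : E3)⟫ := by
  have hnorm : ‖((R v : (ℝ ∙ u)ᗮ) : E3)‖ = ‖(v : E3)‖ := R.norm_map v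
  rcases eq_or_ne v 0 with rfl | hv0
  · simp
  have hpos : 0 < ‖(v : E3)‖ := norm_pos_iff.mpr (by simpa using hv0)
  have hu' : u 0 ^ 2 + u 1 ^ 2 + u 2 ^ 2 = 1 := by rw [← norm_E3, hu]; norm_num
  have hv := (mem_perp u v).mp v.2
  have hs : (√3 / 2) ^ 2 = (3 : ℝ) / 4 := by
    rw [div_pow, Real.sq_sqrt (by norm_num)]; norm_num
  have e0 : ((R v : (ℝ ∙ u)ᗮ) : E3) 0 = -(1 / 2) * (v : E3) 0 +
      (√3 / 2) * (u 1 * (v : E3) 2 - u 2 * (v : E3) 1) := by
    rw [hR]; rfl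
  have e1 : ((R v : (ℝ ∙ u)ᗮ) : E3) 1 = -(1 / 2) * (v : E3) 1 +
      (√3 / 2) * (u 2 * (v : E3) 0 - u 0 * (v : E3) 2) := by
    rw [hR]; rfl
  have e2 : ((R v : (ℝ ∙ u)ᗮ) : E3) 2 = -(1 / 2) * (v : E3) 2 +
      (√3 / 2) * (u 0 * (v : E3) 1 - u 1 * (v : E3) 0) := by
    rw [hR]; rfl
  have key := rot_identity (u 0) (u 1) (u 2) ((v : E3) 0) ((v : E3) 1) ((v : E3) 2) (√3 / 2)
    hu' hv hs
  simp only at key
  rw [inner_gvec, inner_gvec]
  unfold hfun
  rw [hnorm, e0, e1, e2]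
  have hN : (v : E3) 0 ^ 2 + (v : E3) 1 ^ 2 + (v : E3) 2 ^ 2 = ‖(v : E3)‖ ^ 2 := (norm_E3 _).symm
  rw [hN] at key
  field_simp
  linear_combination 256 * key

/-- **Result.**  There is a convex body `K` in three-dimensional Euclidean space which is not a
Euclidean ball, while for every unit vector `u` the orthogonal projection of `K` onto the plane
`(ℝ ∙ u)ᗮ` is a translate of a completely symmetric subset of that plane. -/
theorem result : ∃ K : Set (EuclideanSpace ℝ (Fin 3)),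
    IsCompact K ∧ Convex ℝ K ∧ (interior K).Nonempty ∧ ¬ IsEuclideanBall K ∧
      ∀ u : EuclideanSpace ℝ (Fin 3), ‖u‖ = 1 →
        IsTranslateOfCompletelySymmetric (hyperplaneProjection K u) := by
  refine ⟨wulff hfun, compact, wulff_convex _, wulff_interior hfun (1 / 2) (by norm_num) le_hfun,
    ?_, ?_⟩
  · rintro ⟨c, r, hr, hK⟩
    -- the support function of a ball
    have hsup : ∀ v : E3, hfun v = ⟪c, v⟫ + r * ‖v‖ := by
      intro v
      apply le_antisymm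
      · obtain ⟨x, hx, hxv⟩ := attained v
        rw [hK, mem_closedBall, dist_eq_norm] at hx
        rw [← hxv]
        have h1 : ⟪x - c, v⟫ ≤ ‖x - c‖ * ‖v‖ := real_inner_le_norm _ _
        rw [inner_sub_left] at h1
        have h2 : ‖x - c‖ * ‖v‖ ≤ r * ‖v‖ := mul_le_mul_of_nonneg_right hx (norm_nonneg v)
        linarith
      · rcases eq_or_ne v 0 with rfl | hv
        · simp [hfun]
        have hpos : 0 < ‖v‖ := norm_pos_iff.mpr hv
        have hmem : c + (r / ‖v‖) • v ∈ wulff hfun := by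
          rw [hK, mem_closedBall, dist_eq_norm, add_sub_cancel_left, norm_smul,
            Real.norm_of_nonneg (by positivity), div_mul_cancel₀ _ hpos.ne']
        have h1 := hmem v
        rw [inner_add_left, inner_smul_left, real_inner_self_eq_norm_sq,
          RCLike.conj_to_real] at h1
        have h2 : r / ‖v‖ * ‖v‖ ^ 2 = r * ‖v‖ := by field_simp
        linarith
    have hD : ∀ v : E3, (1 / 8) * (v 0 * v 1 * v 2) / ‖v‖ ^ 2 = ⟪c, v⟫ := by
      intro v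
      have h1 := hsup v
      have h2 := hsup (-v)
      have h3 : hfun (-v) = ‖v‖ - (1 / 8) * (v 0 * v 1 * v 2) / ‖v‖ ^ 2 := by
        unfold hfun
        rw [norm_neg]
        simp only [PiLp.neg_apply]
        ring
      rw [h3, inner_neg_right, norm_neg] at h2
      unfold hfun at h1
      linarith
    have h0 : c 0 = 0 := by
      have := hD (!₂[1, 0, 0] : E3)
      rw [inner_E3] at this
      simpa using this.symm
    have h1 : c 1 = 0 := by
      have := hD (!₂[0, 1, 0] : E3)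
      rw [inner_E3] at this
      simpa using this.symm
    have h2 : c 2 = 0 := by
      have := hD (!₂[0, 0, 1] : E3)
      rw [inner_E3] at this
      simpa using this.symm
    have h3 := hD (!₂[1, 1, 1] : E3)
    have g0 : (!₂[1, 1, 1] : E3) 0 = 1 := rfl
    have g1 : (!₂[1, 1, 1] : E3) 1 = 1 := rfl
    have g2 : (!₂[1, 1, 1] : E3) 2 = 1 := rfl
    rw [inner_E3, norm_E3, h0, h1, h2, g0, g1, g2] at h3
    norm_num at h3
  · intro u hu
    have hs : (-(1 / 2) : ℝ) ^ 2 + (√3 / 2) ^ 2 = 1 := by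
      rw [div_pow, Real.sq_sqrt (by norm_num)]; norm_num
    obtain ⟨R, hR1, hR2⟩ := exists_rot (planeJ u) (planeJ_sq u hu) (planeJ_norm u hu)
      (-(1 / 2)) (√3 / 2) hs
    set a : (ℝ ∙ u)ᗮ := (ℝ ∙ u)ᗮ.orthogonalProjectionOnto (gvec u) with ha
    refine ⟨wulff (fun v : (ℝ ∙ u)ᗮ => hfun v - ⟪a, v⟫), a, ?_, ?_⟩
    · refine completelySymmetric_of_rotation (finrank_perp u hu) R (2 * (-(1 / 2))) ?_ hR2 _ ?_
      · rw [abs_lt]; constructor <;> norm_num
      · apply wulff_linearIsometry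
        intro v
        have h1 : ∀ v : (ℝ ∙ u)ᗮ, ⟪a, v⟫ = ⟪gvec u, (v : E3)⟫ := by
          intro v
          rw [ha, Submodule.inner_orthogonalProjectionOnto_eq_of_mem_right]
        rw [h1, h1]
        exact invariant u hu R hR1 v
    · exact (proj_wulff hfun compact attained _).trans (wulff_translate _ a)

end Pool.Agent.Results.MP_093203_gt.NotABall
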